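import Pool.Agent.Lib.MP_4043ba_gt.Duality

set_option autoImplicit false

open Filter Topology MeasureTheory Pool.Agent.Lib.MP_4043ba_gt

namespace Pool.Agent.Lib.MP_4043ba_gt.Extra.DualityAllDims

/-- For every convex body `K` of `ℝ^d`, `d ≥ 2`, the limit of `c_K(k)/k` exists and equals
`μ(K)/w(K)`, where `μ` is a Borel measure on `K` of largest mass among those giving every plank at
most its width. -/
theorem result {d : ℕ} (hd : 2 ≤ d) {K : Set (E d)} (hK : IsConvexBody K) :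
    ∃ μ : Measure (E d), IsPlankMeasure K μ ∧ μ Set.univ ≠ ⊤ ∧
      (∀ ν : Measure (E d), IsPlankMeasure K ν → ν Set.univ ≤ μ Set.univ) ∧
      (∀ k : ℕ, (μ Set.univ).toReal / minWidth K * k ≤ plankConst K k) ∧
      Tendsto (fun k : ℕ => plankConst K k / k) atTop
        (𝓝 ((μ Set.univ).toReal / minWidth K)) := by
  have hd0 : 0 < d := by omega
  have hw := minWidth_pos hd0 hK
  obtain ⟨L, hL0, hL1, hL2⟩ := exists_limit hd0 hK
  obtain ⟨μ, hμ, hμ1⟩ := exists_plankMeasure hd0 hK hL1 hL2 hL0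
  have hL : (μ Set.univ).toReal / minWidth K = L := by
    rw [hμ1, ENNReal.toReal_ofReal (mul_nonneg hw.le hL0)]
    field_simp
  refine ⟨μ, hμ, ?_, fun ν hν => ?_, ?_, ?_⟩
  · rw [hμ1]; exact ENNReal.ofReal_ne_top
  · rw [hμ1]; exact plankMeasure_univ_le hd0 hK hL2 hν
  · rw [hL]; exact hL1
  · rw [hL]; exact hL2

end Pool.Agent.Lib.MP_4043ba_gt.Extra.DualityAllDims
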